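import Mathlib

namespace Pool.Agent.H.MP_04c77c_pr

open MeasureTheory ProbabilityTheory Measure Real Set
open scoped ENNReal

variable {d : ℕ}

noncomputable def φ (m : Measure (Fin d → ℝ)) (x : Fin d → ℝ) : ℝ :=
  negMulLog (m.rnDeriv volume x).toReal

lemma conv_wd (b : Measure (Fin d → ℝ)) [SFinite b] {f : (Fin d → ℝ) → ℝ≥0∞} (hf : Measurable f) :
    b ∗ volume.withDensity f = volume.withDensity fun s => ∫⁻ y, f (s - y) ∂b := by
  have m : Measurable fun s => ∫⁻ y, f (s - y) ∂b := Measurable.lintegral_prod_right' (f :=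
    fun q : (Fin d → ℝ) × (Fin d → ℝ) => f (q.1 - q.2)) (by fun_prop)
  refine ext_of_lintegral _ fun k hk => ?_
  rw [lintegral_conv hk, lintegral_withDensity_eq_lintegral_mul _ m hk]
  simp only [Pi.mul_apply]
  have e : ∀ s, (∫⁻ y, f (s - y) ∂b) * k s = ∫⁻ y, f (s - y) * k s ∂b := fun s =>
    (lintegral_mul_const _ (hf.comp (measurable_const.sub measurable_id))).symm
  simp only [e]
  rw [lintegral_lintegral_swap (μ := volume) (f := fun s y => f (s - y) * k s)
    (Measurable.aemeasurable (by fun_prop))]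
  refine lintegral_congr fun y => ?_
  rw [lintegral_withDensity_eq_lintegral_mul _ hf (by fun_prop),
    ← lintegral_add_left_eq_self (fun s => f (s - y) * k s) y]
  simp

lemma dens (b m : Measure (Fin d → ℝ)) [IsFiniteMeasure b] [IsFiniteMeasure m] (h : m ≪ volume) :
    (b ∗ m).rnDeriv volume =ᵐ[volume] fun s => ∫⁻ y, m.rnDeriv volume (s - y) ∂b := by
  conv_lhs => rw [← withDensity_rnDeriv_eq _ _ h, conv_wd _ (measurable_rnDeriv _ _)]
  exact rnDeriv_withDensity _ (Measurable.lintegral_prod_right' (f :=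
    fun q : (Fin d → ℝ) × (Fin d → ℝ) => m.rnDeriv volume (q.1 - q.2)) (by fun_prop))

lemma pull {Ω : Type} [MeasurableSpace Ω] {Q : Measure Ω} {m : Measure (Fin d → ℝ)}
    [IsFiniteMeasure m] (h : m ≪ volume) (hi : Integrable (φ m)) {T : Ω → Fin d → ℝ}
    (hT : MeasurePreserving T Q m) : Integrable (fun q => log (m.rnDeriv volume (T q)).toReal) Q ∧
      ∫ q, log (m.rnDeriv volume (T q)).toReal ∂Q = -∫ x, φ m x ∧
      ∀ᵐ q ∂Q, 0 < m.rnDeriv volume (T q) ∧ m.rnDeriv volume (T q) < ∞ := by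
  have e : φ m = fun x => -((m.rnDeriv volume x).toReal * log (m.rnDeriv volume x).toReal) := by
    ext x; simp [φ, negMulLog]
  rw [e] at hi ⊢
  have := (integrable_rnDeriv_mul_log_iff h).mp (integrable_neg_iff.mp hi)
  refine ⟨hT.integrable_comp_of_integrable this, ?_, hT.quasiMeasurePreserving.ae
    ((rnDeriv_pos h).and (h.ae_le (rnDeriv_lt_top _ _)))⟩
  rw [integral_neg, neg_neg, integral_rnDeriv_mul_log h, ← hT.map_eq, integral_map
    hT.measurable.aemeasurable (stronglyMeasurable_llr _ _).aestronglyMeasurable, hT.map_eq]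
  rfl

lemma submod (a b c : Measure (Fin d → ℝ)) [IsProbabilityMeasure a] [IsProbabilityMeasure b]
    [IsProbabilityMeasure c] (h : c ≪ volume) (i0 : Integrable (φ c)) (i1 : Integrable (φ (a ∗ c)))
    (i2 : Integrable (φ (b ∗ c))) (i3 : Integrable (φ (a ∗ (b ∗ c)))) :
    (∫ x, φ (a ∗ (b ∗ c)) x) + ∫ x, φ c x ≤ (∫ x, φ (a ∗ c) x) + ∫ x, φ (b ∗ c) x := by
  have ad : ∀ (a b : Measure (Fin d → ℝ)), MeasurePreserving (fun q => q.1 + q.2) (a.prod b) (a ∗ b) :=
    fun a b => ⟨measurable_add, rfl⟩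
  have h1 : a ∗ c ≪ volume := conv_absolutelyContinuous h
  have h2 : b ∗ c ≪ volume := conv_absolutelyContinuous h
  have h3 : a ∗ (b ∗ c) ≪ volume := conv_absolutelyContinuous h2
  obtain ⟨a0, b0, c0⟩ := pull (Q := a.prod (b.prod c)) h i0
    (measurePreserving_snd.comp measurePreserving_snd)
  obtain ⟨a1, b1, c1⟩ := pull (Q := a.prod (b.prod c)) h1 i1
    ((ad a c).comp ((MeasurePreserving.id a).prod measurePreserving_snd))
  obtain ⟨a2, b2, c2⟩ := pull (Q := a.prod (b.prod c)) h2 i2 ((ad b c).comp measurePreserving_snd)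
  obtain ⟨a3, b3, c3⟩ := pull (Q := a.prod (b.prod c)) h3 i3
    ((ad a _).comp ((MeasurePreserving.id a).prod (ad b c)))
  simp only [Function.comp, Prod.map, id] at a0 b0 c0 a1 b1 c1 a2 b2 c2 a3 b3 c3
  have d1 := dens b _ h1
  have d2 := dens a _ h2
  rw [← conv_assoc, conv_comm b, conv_assoc] at d1
  have e3 : ∫⁻ s, (a ∗ (b ∗ c)).rnDeriv volume s ≤ 1 := lintegral_rnDeriv_le.trans prob_le_one
  have f0 := rnDeriv_lt_top c volume
  have w := withDensity_rnDeriv_eq _ _ h
  have m0 := measurable_rnDeriv c volume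
  have m1 := measurable_rnDeriv (a ∗ c) volume
  have m2 := measurable_rnDeriv (b ∗ c) volume
  have m3 := measurable_rnDeriv (a ∗ (b ∗ c)) volume
  generalize c.rnDeriv volume = p at *
  generalize (a ∗ c).rnDeriv volume = F at *
  generalize (b ∗ c).rnDeriv volume = G at *
  generalize (a ∗ (b ∗ c)).rnDeriv volume = H at *
  let R : (Fin d → ℝ) × (Fin d → ℝ) × (Fin d → ℝ) → ℝ≥0∞ := fun q =>
    (p q.2.2)⁻¹ * (F (q.1 + q.2.2) * G (q.2.1 + q.2.2) * (H (q.1 + (q.2.1 + q.2.2)))⁻¹)
  have mR : Measurable R := by fun_prop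
  have k : ∫⁻ q, R q ∂a.prod (b.prod c) ≤ 1 := calc
    _ ≤ ∫⁻ x, ∫⁻ y, ∫⁻ s, G (s - x) * (F (s - y) * (H s)⁻¹) ∂volume ∂b ∂a := by
      rw [lintegral_prod _ mR.aemeasurable]
      refine lintegral_mono fun x => ?_
      rw [lintegral_prod _ (by fun_prop)]
      refine lintegral_mono fun y => ?_
      rw [← w, lintegral_withDensity_eq_lintegral_mul _ m0 (by fun_prop),
        ← lintegral_add_left_eq_self (fun s => G (s - x) * (F (s - y) * (H s)⁻¹)) (x + y)]
      refine lintegral_mono fun z => ?_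
      simp only [Pi.mul_apply, R]
      rw [← mul_assoc]
      refine (mul_le_of_le_one_left' (ENNReal.mul_inv_le_one _)).trans_eq ?_
      rw [show x + y + z - x = y + z by abel, show x + y + z - y = x + z by abel, add_assoc]
      ring
    _ = ∫⁻ s, (∫⁻ x, G (s - x) ∂a) * ((∫⁻ y, F (s - y) ∂b) * (H s)⁻¹) := by
      have e : ∀ s, (∫⁻ x, G (s - x) ∂a) * ((∫⁻ y, F (s - y) ∂b) * (H s)⁻¹) =
          ∫⁻ x, ∫⁻ y, G (s - x) * (F (s - y) * (H s)⁻¹) ∂b ∂a := fun s => by
        have n1 : Measurable fun y => F (s - y) := m1.comp (measurable_const.sub measurable_id)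
        have n2 : Measurable fun y => G (s - y) := m2.comp (measurable_const.sub measurable_id)
        rw [← lintegral_mul_const _ n1, ← lintegral_mul_const _ n2]
        exact lintegral_congr fun x => (lintegral_const_mul _ (n1.mul_const _)).symm
      simp only [e]
      rw [lintegral_lintegral_swap (μ := volume) (Measurable.aemeasurable
        (Measurable.lintegral_prod_right' (f := fun q : ((Fin d → ℝ) × (Fin d → ℝ)) × (Fin d → ℝ) =>
          G (q.1.1 - q.1.2) * (F (q.1.1 - q.2) * (H q.1.1)⁻¹)) (by fun_prop)))]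
      exact lintegral_congr fun x => lintegral_lintegral_swap
        (f := fun y s => G (s - x) * (F (s - y) * (H s)⁻¹)) (Measurable.aemeasurable (by fun_prop))
    _ ≤ 1 := by
      refine le_trans (lintegral_mono_ae ?_) e3
      filter_upwards [d1, d2] with s e1 e2
      rw [← e1, ← e2]
      exact mul_le_of_le_one_right' (ENNReal.mul_inv_le_one _)
  have iR := integrable_toReal_of_lintegral_ne_top mR.aemeasurable (ne_top_of_le_ne_top (by simp) k)
  have k2 : ∫ q, (R q).toReal ∂a.prod (b.prod c) ≤ 1 := by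
    rw [integral_toReal mR.aemeasurable (ae_lt_top mR (ne_top_of_le_ne_top (by simp) k))]
    exact ENNReal.toReal_le_of_le_ofReal zero_le_one (by simpa using k)
  have k3 := integral_mono_ae ((a1.add a2).sub (a3.add a0)) (iR.sub (integrable_const 1)) (by
    filter_upwards [c0, c1, c2, c3] with q p0 p1 p2 p3
    have t := fun x : ℝ≥0∞ => fun h : 0 < x ∧ x < ∞ => ENNReal.toReal_pos h.1.ne' h.2.ne
    have := t _ p0; have := t _ p1; have := t _ p2; have := t _ p3
    refine le_trans (le_of_eq ?_) (log_le_sub_one_of_pos (x := (R q).toReal) (by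
      simp only [R, ENNReal.toReal_mul, ENNReal.toReal_inv]; positivity))
    simp only [R, ENNReal.toReal_mul, ENNReal.toReal_inv, Pi.sub_apply, Pi.add_apply]
    rw [log_mul (by positivity) (by positivity), log_mul (by positivity) (by positivity),
      log_mul (by positivity) (by positivity), log_inv, log_inv]
    ring)
  rw [integral_sub' (a1.add a2) (a3.add a0), integral_add' a1 a2, integral_add' a3 a0,
    integral_sub' iR (integrable_const 1), b0, b1, b2, b3] at k3
  simp at k3
  linarith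

lemma out {m : Measure (Fin d → ℝ)} [IsFiniteMeasure m] {K : Set (Fin d → ℝ)} (hK : MeasurableSet K)
    (h : m Kᶜ = 0) : ∀ᵐ x, x ∉ K → φ m x = 0 := by
  have := (setLIntegral_eq_zero_iff hK.compl (measurable_rnDeriv m volume)).mp
    (le_zero_iff.mp ((setLIntegral_rnDeriv_le _).trans_eq h))
  filter_upwards [this] with x hx k
  simp [φ, hx k]

lemma int {m : Measure (Fin d → ℝ)} [IsFiniteMeasure m] {u : Fin d → ℝ} (h : m (Icc 0 u)ᶜ = 0)
    {M : NNReal} (hM : m ≤ M • volume) : Integrable (φ m) := by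
  obtain ⟨C, hC⟩ := (isCompact_Icc (a := (0 : ℝ)) (b := M)).exists_bound_of_continuousOn
    continuous_negMulLog.continuousOn
  have b : ∀ᵐ x, m.rnDeriv volume x ≤ M := ae_le_of_forall_setLIntegral_le_of_sigmaFinite
    (measurable_rnDeriv _ _) fun s _ _ => (setLIntegral_rnDeriv_le _).trans (by simpa using hM s)
  refine IntegrableOn.integrable_of_ae_notMem_eq_zero (integrableOn_of_bounded (M := C)
    measure_Icc_lt_top.ne (continuous_negMulLog.measurable.comp
      (measurable_rnDeriv _ _).ennreal_toReal).aestronglyMeasurable (ae_restrict_of_ae ?_))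
    (out measurableSet_Icc h)
  filter_upwards [b] with x hx
  exact hC _ ⟨ENNReal.toReal_nonneg, ENNReal.toReal_le_coe_of_le_coe hx⟩

lemma lower {m : Measure (Fin d → ℝ)} [IsFiniteMeasure m] (h : m ≤ volume) : 0 ≤ ∫ x, φ m x :=
  integral_nonneg_of_ae (by
    filter_upwards [rnDeriv_le_one_of_le h] with x hx
    exact negMulLog_nonneg ENNReal.toReal_nonneg (ENNReal.toReal_le_of_le_ofReal zero_le_one
      (by simpa using hx)))

lemma upper {m : Measure (Fin d → ℝ)} [IsProbabilityMeasure m] (ac : m ≪ volume) {u : Fin d → ℝ}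
    (hu : ∀ i, 0 < u i) (h : m (Icc 0 u)ᶜ = 0) (hi : Integrable (φ m)) :
    exp (∫ x, φ m x) ≤ ∏ i, u i := by
  have p : 0 < ∏ i, u i := Finset.prod_pos fun i _ => hu i
  have v : volume.real (Icc 0 u) = ∏ i, u i := by
    simpa [Measure.real] using volume_Icc_pi_toReal (a := 0) (b := u) fun i => (hu i).le
  generalize ∏ i, u i = V at *
  have i1 := integrable_toReal_rnDeriv (μ := m) (ν := volume)
  have i2 : Integrable ((Icc 0 u).indicator fun _ => V⁻¹) :=
    (integrable_indicator_iff measurableSet_Icc).mpr (integrableOn_const measure_Icc_lt_top.ne)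
  have z := (setLIntegral_eq_zero_iff measurableSet_Icc.compl (measurable_rnDeriv m volume)).mp
    (le_zero_iff.mp ((setLIntegral_rnDeriv_le _).trans_eq h))
  have := integral_mono_ae hi ((i1.mul_const (log V - 1)).add i2) (by
    filter_upwards [z] with x hx
    by_cases k : x ∈ Icc 0 u
    · simp only [φ, Pi.add_apply, indicator_of_mem k]
      rcases eq_or_lt_of_le (ENNReal.toReal_nonneg (a := m.rnDeriv volume x)) with e | e
      · simp [← e, p.le]
      · generalize (m.rnDeriv volume x).toReal = t at *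
        have := mul_le_mul_of_nonneg_left (log_le_sub_one_of_pos (inv_pos.mpr (mul_pos e p))) e.le
        rw [log_inv, log_mul e.ne' p.ne', mul_sub, mul_inv, mul_inv_cancel_left₀ e.ne'] at this
        unfold negMulLog; linarith
    · simp [φ, hx k, k])
  rw [integral_add' (i1.mul_const _) i2, integral_mul_const, integral_toReal_rnDeriv ac,
    integral_indicator measurableSet_Icc, setIntegral_const, v, smul_eq_mul,
    mul_inv_cancel₀ p.ne', probReal_univ] at this
  exact (le_log_iff_exp_le p).mp (by linarith)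

lemma conv_le (a : Measure (Fin d → ℝ)) [IsProbabilityMeasure a] {b : Measure (Fin d → ℝ)}
    [SFinite b] {M : NNReal} (h : b ≤ M • volume) : a ∗ b ≤ M • volume :=
  le_iff.mpr fun s hs => by
    rw [← lintegral_indicator_one hs, lintegral_conv (by measurability)]
    refine (lintegral_mono (g := fun _ => M • volume s) fun x => ?_).trans (by simp)
    refine (lintegral_mono' h le_rfl).trans_eq ?_
    rw [lintegral_smul_measure, lintegral_add_left_eq_self (s.indicator 1) x, lintegral_indicator_one hs]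

noncomputable def law {n : ℕ} (μ : Fin n → Measure (Fin d → ℝ)) (S : Finset (Fin n)) :
    Measure (Fin d → ℝ) := (Measure.pi μ).map fun x => ∑ i ∈ S, x i

variable {n : ℕ} (μ : Fin n → Measure (Fin d → ℝ)) [∀ i, IsProbabilityMeasure (μ i)]

instance (S : Finset (Fin n)) : IsProbabilityMeasure (law μ S) :=
  isProbabilityMeasure_map (by fun_prop)

lemma law_one (i : Fin n) : law μ {i} = μ i := by
  simpa [law] using (measurePreserving_eval μ i).map_eq

lemma law_ins {S : Finset (Fin n)} {i : Fin n} (h : i ∉ S) : law μ (insert i S) = μ i ∗ law μ S := by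
  have := ((iIndepFun_pi (μ := μ) (X := fun _ => id) fun _ => aemeasurable_id).indepFun_finsetSum_of_notMem
    (fun i => measurable_pi_apply i) h).symm.map_add_eq_map_conv_map (measurable_pi_apply i)
      (by fun_prop)
  rw [← law_one μ i]
  rw [show (∑ j ∈ S, fun ω : Fin n → Fin d → ℝ => id (ω j)) = fun x => ∑ j ∈ S, x j by
    ext x; simp] at this
  simp only [law, Finset.sum_insert h, Finset.sum_singleton]
  exact this

lemma law_supp {u : Fin n → Fin d → ℝ} (h : ∀ i, μ i (Icc 0 (u i))ᶜ = 0) (S : Finset (Fin n)) :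
    law μ S (Icc 0 (∑ i ∈ S, u i))ᶜ = 0 := by
  rw [law, map_apply (by fun_prop) measurableSet_Icc.compl]
  have : ∀ᵐ x ∂Measure.pi μ, ∀ i, x i ∈ Icc 0 (u i) := ae_all_iff.mpr fun i =>
    (measurePreserving_eval μ i).quasiMeasurePreserving.ae (h i)
  refine measure_eq_zero_iff_ae_notMem.mpr (this.mono fun x k hx => hx ?_)
  exact ⟨Finset.sum_nonneg fun i _ => (k i).1, Finset.sum_le_sum fun i _ => (k i).2⟩

lemma law_le {M : NNReal} {S : Finset (Fin n)} {i : Fin n} (hi : i ∈ S) (h : μ i ≤ M • volume) :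
    law μ S ≤ M • volume := by
  rw [← Finset.insert_erase hi, law_ins μ (Finset.notMem_erase i S), conv_comm]
  exact conv_le _ h

noncomputable def U (u : Fin 2 → ℝ) : Measure (Fin 2 → ℝ) := cond volume (Icc 0 u)

lemma vol (x u : Fin 2 → ℝ) : volume (Icc x (x + u)) = .ofReal (u 0) * .ofReal (u 1) := by
  simp [volume_Icc_pi]

lemma vol0 (u : Fin 2 → ℝ) : volume (Icc 0 u) = .ofReal (u 0) * .ofReal (u 1) := by
  simpa using vol 0 u

lemma U_prob {u : Fin 2 → ℝ} (h : ∀ i, 0 < u i) : IsProbabilityMeasure (U u) :=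
  cond_isProbabilityMeasure_of_finite (by simp [vol0, h]) measure_Icc_lt_top.ne

lemma U_supp (u : Fin 2 → ℝ) : U u (Icc 0 u)ᶜ = 0 := by
  simp [U, cond_apply measurableSet_Icc]

lemma U_le {u : Fin 2 → ℝ} {M : NNReal} (h : (ENNReal.ofReal (u 0) * .ofReal (u 1))⁻¹ ≤ M) :
    U u ≤ M • volume := le_iff.mpr fun s hs => by
  rw [U, cond_apply measurableSet_Icc, vol0]
  exact mul_le_mul' h (measure_mono inter_subset_right)

lemma UU {ε : ℝ} (h : 0 < ε) : U ![1, ε] ∗ U ![ε, 1] ≤ volume := by
  have := U_prob (u := ![1, ε]) (by simp [Fin.forall_fin_two, h])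
  have e : U ![ε, 1] = volume.withDensity ((Icc 0 ![ε, 1]).indicator fun _ => (ENNReal.ofReal ε)⁻¹) := by
    rw [withDensity_indicator measurableSet_Icc, withDensity_const, U, ProbabilityTheory.cond, vol0]; simp
  have m : Measurable ((Icc (0 : Fin 2 → ℝ) ![ε, 1]).indicator fun _ => (ENNReal.ofReal ε)⁻¹) :=
    measurable_const.indicator measurableSet_Icc
  rw [e, conv_wd _ m]
  refine (withDensity_mono (ae_of_all _ fun s => ?_)).trans_eq withDensity_one
  refine (lintegral_mono (g := ((fun y => s - y) ⁻¹' Icc 0 ![ε, 1]).indicator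
    fun _ => (ENNReal.ofReal ε)⁻¹) fun y => le_rfl).trans ?_
  rw [lintegral_indicator_const (measurableSet_Icc.preimage (by fun_prop)), U,
    cond_apply measurableSet_Icc, vol0]
  refine (mul_le_mul_right (mul_le_mul_right ((measure_mono (t := Icc ![s 0 - ε, 0]
    (![s 0 - ε, 0] + ![ε, ε])) fun y hy => ?_).trans_eq (vol _ _)) _) _).trans_eq ?_
  · simp [Pi.le_def, Fin.forall_fin_two, Matrix.vecHead, Matrix.vecTail] at hy ⊢
    grind
  · have := ENNReal.inv_mul_cancel (ENNReal.ofReal_pos.mpr h).ne' ENNReal.ofReal_ne_top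
    simp [← mul_assoc]
    rw [mul_assoc _⁻¹, this, mul_one, this]

end Pool.Agent.H.MP_04c77c_pr
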